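import Pool.Agent.T6.H40.RP.Core
import Pool.Agent.T6.H40.RP.Both

/-!
# A metric theorem for abc over the Gaussian integers (MP_dc323a_nt, Q1)

`Bad B lam a b` says that `a + b = c` is a violation: `a`, `b`, `c` are nonzero, coprime, and
`rad (abc) ≤ B * max (|a|, |b|, |c|) ^ lam`.  The conjecture Q1 says that for `lam < 1` and each `B` there are only
finitely many violations.  Put `e = expo lam = min (8 lam / 7) (12 / 11) + 2 max (lam - 1) 0`, so `e = 12 / 11` for
`lam = 1`, which is more than Q1 asks.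

Let `g`, `p`, `q`, `w` be functions on any countable index set, `g` without zeros and `w ≥ 0`, with
`∑ (w t / |g t|) ^ s * (1 + |g t| + |p t| + |q t| + w t) ^ (e + ε) < ∞` for some `ε, s > 0`.  `Hits g p q w B lam (α, β)`
is the set of the `t` which have a violation `(a, b)` in the window `|a - (α g t + p t)| ≤ w t`,
`|b - (β g t + q t)| ≤ w t`.  The set `E` of the `(α, β)` in `ℂ²` for which it is infinite for some `B` has
`s`-dimensional Hausdorff measure zero, and `E` is a null set if `s ≤ 4`: for `(α, β)` outside `E` all the coprime triples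
in all but finitely many windows satisfy `rad (abc) > B * max (|a|, |b|, |c|) ^ lam`.

The case of polynomials at all Gaussian integers is stated as well: let `P`, `Q` be complex polynomials of degree at
most `d`, and `(d - ρ) s > d e + 2`.  The same is true for the set of the `(α, β)` such that for some `B` infinitely many
Gaussian integers `z` have a violation `(a, b)` within `|z| ^ ρ` of `(α z ^ d + P(z), β z ^ d + Q(z))`.  For `lam = 1` this
is a null set if `ρ < 8 d / 11 - 1 / 2`, and its Hausdorff dimension is at most `12 / 11 + 2 / d` if `ρ = 0`.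

The bound for the exceptional set of the starting file `ExceptionalSetTwelveElevenths` is used.
-/

set_option autoImplicit false

namespace Pool.Agent.Results.MP_dc323a_nt.MetricWindows

open MeasureTheory Pool.Agent.T6.H40.RP

theorem result :
    (∀ lam ε s : ℝ, 0 < lam → 0 < ε → 0 < s → ∀ (ι : Type) [Countable ι] (g p q : ι → ℂ) (w : ι → ℝ),
      (∀ t, g t ≠ 0) → (∀ t, 0 ≤ w t) →
      (Summable fun t => (w t / ‖g t‖) ^ s * (1 + ‖g t‖ + ‖p t‖ + ‖q t‖ + w t) ^ (expo lam + ε)) →
      Measure.hausdorffMeasure s {x : ℂ × ℂ | ∃ B : ℝ, (Hits g p q w B lam x).Infinite} = 0 ∧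
      (s ≤ 4 → ∀ᵐ x : ℂ × ℂ, ∀ B : ℝ, (Hits g p q w B lam x).Finite)) ∧
    (∀ lam : ℝ, 0 < lam → ∀ d : ℕ, 1 ≤ d → ∀ ρ s : ℝ, 0 < s → d * expo lam + 2 < (d - ρ) * s →
      ∀ P Q : Polynomial ℂ, P.natDegree ≤ d → Q.natDegree ≤ d →
      Measure.hausdorffMeasure s {x : ℂ × ℂ | ∃ B : ℝ,
        (Hits (fun z : GaussianInt => GaussianInt.toComplex z ^ d)
          (fun z => P.eval (GaussianInt.toComplex z)) (fun z => Q.eval (GaussianInt.toComplex z))
          (fun z => ab z ^ ρ) B lam x).Infinite} = 0 ∧
      (s ≤ 4 → ∀ᵐ x : ℂ × ℂ, ∀ B : ℝ,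
        (Hits (fun z : GaussianInt => GaussianInt.toComplex z ^ d)
          (fun z => P.eval (GaussianInt.toComplex z)) (fun z => Q.eval (GaussianInt.toComplex z))
          (fun z => ab z ^ ρ) B lam x).Finite)) := by
  refine ⟨fun lam ε s hlam hε hs0 ι _ g p q w hg hw hs => ⟨?_, fun hs4 => ?_⟩,
    fun lam hlam d hd ρ s hs0 hρ P Q hP hQ => ⟨?_, fun hs4 => ?_⟩⟩
  · exact metric_haus lam ε s hlam hε hs0 (fun B => pairs_count B lam ε hlam hε) g p q w hg hw hs
  · exact metric_of_le lam ε s hlam hε hs0 hs4 (fun B => pairs_count B lam ε hlam hε) g p q w hg hw hs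
  · exact poly_haus lam hlam (fun B ε hε => pairs_count B lam ε hlam hε) d hd ρ s hs0 hρ P Q hP hQ
  · exact poly_metric_of_le lam hlam (fun B ε hε => pairs_count B lam ε hlam hε) d hd ρ s hs0 hs4 hρ P Q hP hQ

end Pool.Agent.Results.MP_dc323a_nt.MetricWindows
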