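import Pool.Agent.T6.H40.RP.Core
import Pool.Agent.T6.H40.RP.Inst2

/-!
# abc over the Gaussian integers holds for all the values of almost every pair of polynomials (MP_dc323a_nt, Q1)

`Bad B lam a b` says that `a + b = c` is a violation: `a`, `b`, `c` are nonzero, coprime, and
`rad (abc) ≤ B * max (|a|, |b|, |c|) ^ lam`.  The conjecture Q1 says that for `lam < 1` and each `B` there are only
finitely many violations.  Put `e = expo lam = min (8 lam / 7) (12 / 11) + 2 max (lam - 1) 0`, so `e = 12 / 11` for
`lam = 1`, which is more than Q1 asks.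

For a finite set `K` of monomials and `θ ≥ 0` consider the statement: all but a proportion `H ^ (-ν)` of the pairs
`(P, Q)` of polynomials with monomials in `K` and Gaussian integer coefficients of absolute value at most `H` have no
violation at all among the triples `P(t) + Q(t) = (P + Q)(t)` with `|t i| ≤ H ^ θ`.  If `e < 4`, it is true in the
following cases.

1. Polynomials in one variable of degree at most `d`, `d ≥ 1`, and `θ (2 + d e) + e < 4 + min (4 d θ) (4 d - 2 + 2 θ)`.
   For `lam = 1` this is `θ < 11 / 3 + 5 / (6 d)`.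

2. Binary forms of degree `d ≥ 1`, and `θ (4 + d e) + e < 4 + min (4 d θ) (4 d - 2 + 2 θ)`.  For `lam = 1` this is
   `θ < (22 d + 5) / (6 d + 11)`.  For `d = 1`: for almost all 2 by 2 matrices with Gaussian integer entries of absolute
   value at most `H`, no vector with entries at most `H ^ θ`, `θ < 27 / 17`, is mapped to a violation `(a, b)`.

3. Any finite set `K` of monomials of degree at most `d` in `r` variables which contains `1` and all `x i ^ j` with
   `j ≤ m`, and `θ (2 r + d e) + e < 4 + 4 m min θ 1`.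

The bound for the exceptional set of the starting file `ExceptionalSetTwelveElevenths` is used, and for large `θ` the
number of divisors: `t` divides `P(t) - P(0)`.
-/

set_option autoImplicit false

namespace Pool.Agent.Results.MP_dc323a_nt.RandomPolynomials

open Pool.Agent.T6.H40.RP

/-- almost all pairs of polynomials with monomials in `K` and coefficients at most `H` have no violation among their
values at the arguments at most `H ^ θ`, with a power saving -/
def AlmostAll {r : ℕ} (K : Finset (Fin r →₀ ℕ)) (B lam θ : ℝ) : Prop :=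
  (∀ H : ℝ, 0 ≤ H → (Polys K H).Finite) ∧
  ∃ ν : ℝ, 0 < ν ∧ ∃ H₀ : ℝ, ∀ H : ℝ, H₀ ≤ H →
    ((BadPairs K B lam H (H ^ θ)).ncard : ℝ) ≤ H ^ (-ν) * ((Polys K H).ncard : ℝ) ^ 2

theorem result (B lam θ : ℝ) (hlam : 0 < lam) (he : expo lam < 4) (hθ : 0 ≤ θ) :
    (∀ d : ℕ, 1 ≤ d → θ * (2 + d * expo lam) + expo lam < 4 + min (4 * d * θ) (4 * d - 2 + 2 * θ) →
      AlmostAll (powExps d) B lam θ) ∧
    (∀ d : ℕ, 1 ≤ d → θ * (4 + d * expo lam) + expo lam < 4 + min (4 * d * θ) (4 * d - 2 + 2 * θ) →
      AlmostAll (formExps d) B lam θ) ∧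
    (∀ (r d m : ℕ) (K : Finset (Fin r →₀ ℕ)), 0 ∈ K → (∀ k ∈ K, ∑ i, k i ≤ d) →
      (∀ i, ∀ j ≤ m, Finsupp.single i j ∈ K) →
      θ * (2 * r + d * expo lam) + expo lam < 4 + 4 * m * min θ 1 → AlmostAll K B lam θ) :=
  ⟨fun d hd1 hcond => ⟨fun H hH => polys_fin _ H hH, uni_final pairs_count d hd1 B lam θ hlam hθ he hcond⟩,
    fun d hd1 hcond => ⟨fun H hH => polys_fin _ H hH, form_final2 pairs_count d hd1 B lam θ hlam hθ he hcond⟩,
    fun r d m K h0 hd hm hcond => ⟨fun H hH => polys_fin _ H hH,
      poly_final pairs_count r d m K h0 hd hm B lam θ hlam hθ he hcond⟩⟩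

end Pool.Agent.Results.MP_dc323a_nt.RandomPolynomials
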