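import Pool.Agent.Results.MP_dc323a_nt.ExceptionalSetTwelveElevenths
import Pool.Agent.T6.H23.TB.Members

/-!
# The abc inequality over the Gaussian integers on thin random bases

Let `A` be a random set of Gaussian integers: the events `g ∈ A` are independent and `g ≠ 0` is chosen with probability
`|g| ^ (-α)`. For `α < 1` almost every such set, which has about `T ^ (2 - α)` elements of absolute value at most `T`, is
an additive basis of order two of the Gaussian integers: each `c` of large absolute value has at least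
`|c| ^ (2 - 2 α - δ)` representations as a sum of two coprime elements of `A`. For `α > 6 / 11` all but finitely many
coprime triples `a + b = c` with two members of absolute value at least `H / 2` in `A`, `H = max (|a|, |b|, |c|)`,
satisfy the inequality of the abc conjecture (and more, `rad (abc) > B H ^ λ` for some `λ > 1`); for triples with all three
members in `A` and of comparable absolute values `α > 4 / 11` is enough, and for `α > 12 / 11` one large member in `A` is.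
-/

set_option autoImplicit false

namespace Pool.Agent.Results.MP_dc323a_nt.ThinBases

open MeasureTheory ProbabilityTheory
open ExceptionalSetTwelveElevenths (Exc)

/-- `S` contains exactly one Gaussian prime from each associate class of Gaussian primes dividing `x` -/
def IsPrimeSystem (S : Finset GaussianInt) (x : GaussianInt) : Prop :=
  (∀ Q ∈ S, Prime Q ∧ Q ∣ x) ∧
  (∀ Q : GaussianInt, Prime Q → Q ∣ x → ∃ R ∈ S, Associated Q R) ∧
  (∀ Q ∈ S, ∀ R ∈ S, Associated Q R → Q = R)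

/-- the largest absolute value of the members of a triple -/
noncomputable def height (t : GaussianInt × GaussianInt × GaussianInt) : ℝ :=
  max ‖GaussianInt.toComplex t.1‖
    (max ‖GaussianInt.toComplex t.2.1‖ ‖GaussianInt.toComplex t.2.2‖)

/-- the coprime triples `a + b = c` of nonzero Gaussian integers with `rad (abc) ≤ B H ^ lam`, `H` the height -/
def Small (B lam : ℝ) : Set (GaussianInt × GaussianInt × GaussianInt) :=
  {t | t.1 ≠ 0 ∧ t.2.1 ≠ 0 ∧ t.2.2 ≠ 0 ∧ t.1 + t.2.1 = t.2.2 ∧ IsCoprime t.1 t.2.1 ∧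
    ∃ S : Finset GaussianInt, IsPrimeSystem S (t.1 * t.2.1 * t.2.2) ∧
      ∏ Q ∈ S, ‖GaussianInt.toComplex Q‖ ≤ B * height t ^ lam}

/-- the exponent -/
noncomputable def expo (lam : ℝ) : ℝ := min (8 * lam / 7) (12 / 11) + 2 * max (lam - 1) 0

/-- the random sets of density `|g| ^ (-α)`: `R g` is the event that `g` is chosen -/
structure IsRandomSet (α : ℝ) {Ω : Type} [MeasurableSpace Ω] (μ : Measure Ω) (R : GaussianInt → Set Ω) : Prop where
  prob : IsProbabilityMeasure μ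
  meas : ∀ g, MeasurableSet (R g)
  indep : iIndepSet R μ
  density : ∀ g, g ≠ 0 → μ (R g) = ENNReal.ofReal (‖GaussianInt.toComplex g‖ ^ (-α))

/-- the Gaussian integers `a` such that `c = a + (c - a)` is a sum of two coprime elements of `A`, both of absolute value
at least `|c| ^ κ`, the first of absolute value at most `|c|` -/
def Reps (A : Set GaussianInt) (κ : ℝ) (c : GaussianInt) : Set GaussianInt :=
  {a | a ∈ A ∧ c - a ∈ A ∧ IsCoprime a (c - a) ∧ ‖GaussianInt.toComplex a‖ ≤ ‖GaussianInt.toComplex c‖ ∧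
    ‖GaussianInt.toComplex c‖ ^ κ ≤ ‖GaussianInt.toComplex a‖ ∧
    ‖GaussianInt.toComplex c‖ ^ κ ≤ ‖GaussianInt.toComplex (c - a)‖}

/-- at least one member of the triple of absolute value at least half the height is in `A` -/
def OneLarge (A : Set GaussianInt) (t : GaussianInt × GaussianInt × GaussianInt) : Prop :=
  ∃ x ∈ ({t.1, t.2.1, t.2.2} : Set GaussianInt), x ∈ A ∧ height t ≤ 2 * ‖GaussianInt.toComplex x‖

/-- at least two members of the triple of absolute value at least half the height are in `A` -/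
def TwoLarge (A : Set GaussianInt) (t : GaussianInt × GaussianInt × GaussianInt) : Prop :=
  ∃ x ∈ ({t.1, t.2.1, t.2.2} : Set GaussianInt), ∃ y ∈ ({t.1, t.2.1, t.2.2} : Set GaussianInt), x ≠ y ∧ x ∈ A ∧ y ∈ A ∧
    height t ≤ 2 * ‖GaussianInt.toComplex x‖ ∧ height t ≤ 2 * ‖GaussianInt.toComplex y‖

/-- all members of the triple are in `A` -/
def AllIn (A : Set GaussianInt) (t : GaussianInt × GaussianInt × GaussianInt) : Prop :=
  t.1 ∈ A ∧ t.2.1 ∈ A ∧ t.2.2 ∈ A

theorem small_count (k lam ε : ℝ) (h0 : 0 < lam) (hε : 0 < ε) : ∃ C : ℝ, ∀ X : ℝ, 1 ≤ X →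
    {t | t ∈ Small k lam ∧ Pool.Agent.T6.H23.TB.ht t ≤ X}.Finite ∧
      ({t | t ∈ Small k lam ∧ Pool.Agent.T6.H23.TB.ht t ≤ X}.ncard : ℝ) ≤ C * X ^ (expo lam + ε) := by
  obtain ⟨C, hC⟩ := ExceptionalSetTwelveElevenths.result k lam ε h0 hε
  refine ⟨C, fun X hX => ?_⟩
  obtain ⟨hfin, hcard⟩ := hC X hX
  have hsub : {t | t ∈ Small k lam ∧ Pool.Agent.T6.H23.TB.ht t ≤ X} ⊆ Exc k lam X := by
    rintro t ⟨⟨a1, a2, a3, a4, a5, a7⟩, htX⟩
    exact ⟨a1, a2, a3, a4, a5, htX, a7⟩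
  refine ⟨hfin.subset hsub, le_trans ?_ hcard⟩
  exact_mod_cast Set.ncard_le_ncard hsub hfin

theorem expo_add (lam ε : ℝ) (hε : 0 ≤ ε) : expo (lam + ε) ≤ expo lam + 4 * ε := by
  unfold expo
  have h1 : min (8 * (lam + ε) / 7) (12 / 11 : ℝ) ≤ min (8 * lam / 7) (12 / 11) + 8 / 7 * ε := by
    rcases le_total (8 * lam / 7) (12 / 11 : ℝ) with h | h
    · rw [min_eq_left h]
      exact (min_le_left _ _).trans (by linarith)
    · rw [min_eq_right h]
      exact (min_le_right _ _).trans (by linarith)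
  have h2 : max (lam + ε - 1) 0 ≤ max (lam - 1) 0 + ε := by
    apply max_le
    · have := le_max_left (lam - 1) 0
      linarith
    · have := le_max_right (lam - 1) 0
      linarith
  linarith

theorem small_mono {B B' lam lam' : ℝ} (h1 : B ≤ B') (h2 : 0 ≤ B') (h3 : lam ≤ lam') : Small B lam ⊆ Small B' lam' := by
  rintro t ⟨a1, a2, a3, a4, a5, S, hS, hr⟩
  have hH : 1 ≤ height t := (Pool.Agent.T6.H23.TB.one_le_norm a1).trans (le_max_left _ _)
  refine ⟨a1, a2, a3, a4, a5, S, hS, hr.trans ?_⟩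
  exact mul_le_mul h1 (Real.rpow_le_rpow_of_exponent_le hH h3) (Real.rpow_nonneg (by linarith) _) h2

/-- **Theorem.** Let `α > 0`. Random sets of density `|g| ^ (-α)` exist, and almost every such set `A` has the following
properties, where `H = max (|a|, |b|, |c|)` and `expo λ = min (8 λ / 7) (12 / 11) + 2 max (λ - 1) 0`.
(1) For all `λ > 0` with `expo λ < α` and all `B` only finitely many coprime triples `a + b = c` of nonzero Gaussian
integers with a member of absolute value at least `H / 2` in `A` have `rad (abc) ≤ B H ^ λ`.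
(2) The same for all `λ > 0` with `expo λ < 2 α` and the triples with two members of absolute value at least `H / 2` in
`A`; so for `α > 6 / 11` they satisfy the inequality of Q1.
(3) The same for all `λ, η > 0`, `θ ≥ 0` with `expo λ < θ α` and the triples with all members in `A` and
`|a b c| ≥ η H ^ θ`.
(4) If `α < 1`, then for all `δ > 0` and `κ < 1` each `c` of large absolute value has at least `|c| ^ (2 - 2 α - δ)`
representations as a sum of two coprime elements of `A` of absolute value at least `|c| ^ κ`.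
(5) If `α < 2`, the number of elements of `A` of absolute value at most `T` is `T ^ (2 - α + o(1))`. -/
theorem result (α : ℝ) (hα : 0 < α) :
    (∃ (Ω : Type) (_ : MeasurableSpace Ω) (μ : Measure Ω) (R : GaussianInt → Set Ω), IsRandomSet α μ R) ∧
    ∀ (Ω : Type) [MeasurableSpace Ω] (μ : Measure Ω) (R : GaussianInt → Set Ω), IsRandomSet α μ R →
      ∀ᵐ ω ∂μ,
        (∀ lam B : ℝ, 0 < lam → expo lam < α → {t | t ∈ Small B lam ∧ OneLarge {g | ω ∈ R g} t}.Finite) ∧
        (∀ lam B : ℝ, 0 < lam → expo lam < 2 * α → {t | t ∈ Small B lam ∧ TwoLarge {g | ω ∈ R g} t}.Finite) ∧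
        (∀ lam B θ η : ℝ, 0 < lam → 0 ≤ θ → 0 < η → expo lam < θ * α →
          {t | t ∈ Small B lam ∧ AllIn {g | ω ∈ R g} t ∧ η * height t ^ θ ≤
            ‖GaussianInt.toComplex t.1‖ * ‖GaussianInt.toComplex t.2.1‖ * ‖GaussianInt.toComplex t.2.2‖}.Finite) ∧
        (α < 1 → ∀ δ κ : ℝ, 0 < δ → κ < 1 → ∃ X₀ : ℝ, ∀ c : GaussianInt, X₀ ≤ ‖GaussianInt.toComplex c‖ →
          ‖GaussianInt.toComplex c‖ ^ (2 - 2 * α - δ) ≤ ((Reps {g | ω ∈ R g} κ c).ncard : ℝ)) ∧
        (α < 2 → ∀ δ : ℝ, 0 < δ →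
          (∃ T₀ : ℝ, ∀ T : ℝ, T₀ ≤ T →
            T ^ (2 - α - δ) ≤ ({g | ω ∈ R g ∧ ‖GaussianInt.toComplex g‖ ≤ T}.ncard : ℝ)) ∧
          ∃ C : ℝ, ∀ T : ℝ, 1 ≤ T →
            ({g | ω ∈ R g ∧ ‖GaussianInt.toComplex g‖ ≤ T}.ncard : ℝ) ≤ C * T ^ (2 - α + δ)) := by
  refine ⟨?_, fun Ω _ μ R hR => ?_⟩
  · obtain ⟨Ω, m, μ, R, h⟩ := Pool.Agent.T6.H23.TB.exists_randomSet α hα
    exact ⟨Ω, m, μ, R, h.prob, h.meas, h.indep, h.density⟩
  have h : Pool.Agent.T6.H23.TB.IsRandomSet α μ R := ⟨hR.prob, hR.meas, hR.indep, hR.density⟩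
  have hzero : ∀ (B lam : ℝ), ∀ t ∈ Small B lam, t.1 ≠ 0 ∧ t.2.1 ≠ 0 ∧ t.2.2 ≠ 0 ∧ t.1 + t.2.1 = t.2.2 ∧
      IsCoprime t.1 t.2.1 := fun B lam t ht => ⟨ht.1, ht.2.1, ht.2.2.1, ht.2.2.2.1, ht.2.2.2.2.1⟩
  -- (1)
  have p0 : ∀ᵐ ω ∂μ, ∀ k : ℕ, ∀ q : ℚ, 0 < (q : ℝ) → expo q < α →
      {t | t ∈ Small (k : ℝ) (q : ℝ) ∧ OneLarge {g | ω ∈ R g} t}.Finite := by
    rw [ae_all_iff]
    intro k
    rw [ae_all_iff]
    intro q
    by_cases hq : 0 < (q : ℝ) ∧ expo q < α
    · obtain ⟨C, hC⟩ := small_count k q ((α - expo q) / 2) hq.1 (by linarith [hq.2])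
      have h2 := Pool.Agent.T6.H23.TB.one_member h hα (Small k q) C (expo q + (α - expo q) / 2)
        (by linarith [hq.2]) (fun t ht => ⟨(hzero _ _ t ht).1, (hzero _ _ t ht).2.1, (hzero _ _ t ht).2.2.1⟩) hC
      filter_upwards [h2] with ω hω
      intro _ _
      exact hω
    · exact Filter.Eventually.of_forall (fun ω h3 h4 => absurd ⟨h3, h4⟩ hq)
  -- (2)
  have p1 : ∀ᵐ ω ∂μ, ∀ k : ℕ, ∀ q : ℚ, 0 < (q : ℝ) → expo q < 2 * α →
      {t | t ∈ Small (k : ℝ) (q : ℝ) ∧ TwoLarge {g | ω ∈ R g} t}.Finite := by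
    rw [ae_all_iff]
    intro k
    rw [ae_all_iff]
    intro q
    by_cases hq : 0 < (q : ℝ) ∧ expo q < 2 * α
    · obtain ⟨C, hC⟩ := small_count k q ((2 * α - expo q) / 2) hq.1 (by linarith [hq.2])
      have h2 := Pool.Agent.T6.H23.TB.two_members h hα (Small k q) C (expo q + (2 * α - expo q) / 2)
        (by linarith [hq.2]) (fun t ht => ⟨(hzero _ _ t ht).1, (hzero _ _ t ht).2.1, (hzero _ _ t ht).2.2.1⟩) hC
      filter_upwards [h2] with ω hω
      intro _ _
      exact hω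
    · exact Filter.Eventually.of_forall (fun ω h3 h4 => absurd ⟨h3, h4⟩ hq)
  -- (3)
  have p2 : ∀ᵐ ω ∂μ, ∀ k : ℕ, ∀ q r : ℚ, ∀ n : ℕ, 0 < (q : ℝ) → 0 ≤ (r : ℝ) → expo q < r * α →
      {t | t ∈ Small (k : ℝ) (q : ℝ) ∧ ω ∈ R t.1 ∧ ω ∈ R t.2.1 ∧ ω ∈ R t.2.2 ∧
        1 / ((n : ℝ) + 1) * Pool.Agent.T6.H23.TB.ht t ^ (r : ℝ) ≤
          ‖GaussianInt.toComplex t.1‖ * ‖GaussianInt.toComplex t.2.1‖ * ‖GaussianInt.toComplex t.2.2‖}.Finite := by
    rw [ae_all_iff]
    intro k
    rw [ae_all_iff]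
    intro q
    rw [ae_all_iff]
    intro r
    rw [ae_all_iff]
    intro n
    by_cases hq : 0 < (q : ℝ) ∧ 0 ≤ (r : ℝ) ∧ expo q < r * α
    · obtain ⟨C, hC⟩ := small_count k q ((r * α - expo q) / 2) hq.1 (by linarith [hq.2.2])
      have h2 := Pool.Agent.T6.H23.TB.three_members h hα (Small k q) C (expo q + (r * α - expo q) / 2) r
        (1 / ((n : ℝ) + 1)) (by positivity) hq.2.1 (by linarith [hq.2.2]) (hzero _ _) hC
      filter_upwards [h2] with ω hω
      intro _ _ _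
      exact hω
    · exact Filter.Eventually.of_forall (fun ω h3 h4 h5 => absurd ⟨h3, h4, h5⟩ hq)
  -- (4)
  have p3 : ∀ᵐ ω ∂μ, ∀ m n : ℕ, α < 1 → ∃ X₀ : ℝ, ∀ c : GaussianInt, X₀ ≤ ‖GaussianInt.toComplex c‖ →
      ‖GaussianInt.toComplex c‖ ^ (2 - 2 * α - 1 / ((m : ℝ) + 1)) ≤
        ((Reps {g | ω ∈ R g} (1 - 1 / ((n : ℝ) + 1)) c).ncard : ℝ) := by
    rw [ae_all_iff]
    intro m
    rw [ae_all_iff]
    intro n
    by_cases hα1 : α < 1
    · have h2 := Pool.Agent.T6.H23.TB.basis h hα hα1 (1 / ((m : ℝ) + 1)) (1 - 1 / ((n : ℝ) + 1)) (by positivity)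
        (by
          have : (0 : ℝ) < 1 / ((n : ℝ) + 1) := by positivity
          linarith)
      filter_upwards [h2] with ω hω
      intro _
      exact hω
    · exact Filter.Eventually.of_forall (fun ω h3 => absurd h3 hα1)
  -- (5)
  have p4 : ∀ᵐ ω ∂μ, ∀ m : ℕ, α < 2 →
      (∃ T₀ : ℝ, ∀ T : ℝ, T₀ ≤ T →
        T ^ (2 - α - 1 / ((m : ℝ) + 1)) ≤ ({g | ω ∈ R g ∧ ‖GaussianInt.toComplex g‖ ≤ T}.ncard : ℝ)) ∧
      ∃ C : ℝ, ∀ T : ℝ, 1 ≤ T →
        ({g | ω ∈ R g ∧ ‖GaussianInt.toComplex g‖ ≤ T}.ncard : ℝ) ≤ C * T ^ (2 - α + 1 / ((m : ℝ) + 1)) := by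
    rw [ae_all_iff]
    intro m
    by_cases hα2 : α < 2
    · filter_upwards [Pool.Agent.T6.H23.TB.size_lower h hα hα2 (1 / ((m : ℝ) + 1)) (by positivity),
        Pool.Agent.T6.H23.TB.size_upper h hα2 (1 / ((m : ℝ) + 1)) (by positivity)] with ω hω1 hω2
      intro _
      exact ⟨hω1, hω2⟩
    · exact Filter.Eventually.of_forall (fun ω h3 => absurd h3 hα2)
  filter_upwards [p0, p1, p2, p3, p4] with ω w0 w1 w2 w3 w4
  refine ⟨fun lam B hlam hexp => ?_, fun lam B hlam hexp => ?_, fun lam B θ η hlam hθ hη hexp => ?_, fun hα1 δ κ hδ hκ => ?_, fun hα2 δ hδ => ?_⟩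
  · obtain ⟨q, hq1, hq2⟩ := exists_rat_btwn (show lam < lam + (α - expo lam) / 4 by linarith)
    obtain ⟨k, hk⟩ := exists_nat_ge (max B 0)
    have h3 := expo_add lam (q - lam) (by linarith)
    rw [add_sub_cancel] at h3
    refine (w0 k q (by linarith) (by linarith)).subset ?_
    rintro t ⟨ht1, ht2⟩
    exact ⟨small_mono ((le_max_left _ _).trans hk) (Nat.cast_nonneg _) hq1.le ht1, ht2⟩
  · obtain ⟨q, hq1, hq2⟩ := exists_rat_btwn (show lam < lam + (2 * α - expo lam) / 4 by linarith)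
    obtain ⟨k, hk⟩ := exists_nat_ge (max B 0)
    have h3 := expo_add lam (q - lam) (by linarith)
    rw [add_sub_cancel] at h3
    refine (w1 k q (by linarith) (by linarith)).subset ?_
    rintro t ⟨ht1, ht2⟩
    exact ⟨small_mono ((le_max_left _ _).trans hk) (Nat.cast_nonneg _) hq1.le ht1, ht2⟩
  · have hθ0 : 0 < θ := by
      by_contra hcon
      have : θ = 0 := le_antisymm (not_lt.1 hcon) hθ
      rw [this, zero_mul] at hexp
      have h5 : 0 ≤ expo lam := by
        unfold expo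
        have := le_max_right (lam - 1) 0
        have : 0 ≤ min (8 * lam / 7) (12 / 11 : ℝ) := le_min (by positivity) (by norm_num)
        positivity
      linarith
    obtain ⟨q, hq1, hq2⟩ := exists_rat_btwn (show lam < lam + (θ * α - expo lam) / 8 by linarith)
    obtain ⟨r, hr1, hr2⟩ := exists_rat_btwn (show max 0 (θ - (θ * α - expo lam) / (2 * α)) < θ from
      max_lt hθ0 (by
        have : 0 < (θ * α - expo lam) / (2 * α) := div_pos (by linarith) (by positivity)
        linarith))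
    obtain ⟨k, hk⟩ := exists_nat_ge (max B 0)
    obtain ⟨n, hn⟩ := exists_nat_ge (1 / η)
    have h3 := expo_add lam (q - lam) (by linarith)
    rw [add_sub_cancel] at h3
    have hr0 : 0 ≤ (r : ℝ) := ((le_max_left _ _).trans hr1.le)
    have hr3 : θ - (θ * α - expo lam) / (2 * α) < r := lt_of_le_of_lt (le_max_right _ _) hr1
    have hr4 : θ * α - (θ * α - expo lam) / 2 < r * α := by
      have h6 : (θ - (θ * α - expo lam) / (2 * α)) * α = θ * α - (θ * α - expo lam) / 2 := by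
        field_simp
      rw [← h6]
      exact mul_lt_mul_of_pos_right hr3 hα
    refine (w2 k q r n (by linarith) hr0 (by linarith)).subset ?_
    rintro t ⟨ht1, ⟨ht2, ht3, ht4⟩, ht5⟩
    have hH : 1 ≤ height t := (Pool.Agent.T6.H23.TB.one_le_norm ht1.1).trans (le_max_left _ _)
    refine ⟨small_mono ((le_max_left _ _).trans hk) (Nat.cast_nonneg _) hq1.le ht1, ht2, ht3, ht4, le_trans ?_ ht5⟩
    have h7 : 1 / ((n : ℝ) + 1) ≤ η := by
      rw [div_le_iff₀ hη] at hn
      rw [div_le_iff₀ (by positivity)]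
      nlinarith
    exact mul_le_mul h7 (Real.rpow_le_rpow_of_exponent_le hH hr2.le)
      (Real.rpow_nonneg (show (0 : ℝ) ≤ height t by linarith) _) hη.le
  · obtain ⟨m, hm⟩ := exists_nat_one_div_lt hδ
    obtain ⟨n, hn⟩ := exists_nat_one_div_lt (show 0 < 1 - κ by linarith)
    obtain ⟨X₀, hX₀⟩ := w3 m n hα1
    refine ⟨max X₀ 1, fun c hc => ?_⟩
    have hc1 : 1 ≤ ‖GaussianInt.toComplex c‖ := (le_max_right _ _).trans hc
    refine (Real.rpow_le_rpow_of_exponent_le hc1 (by linarith)).trans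
      ((hX₀ c ((le_max_left _ _).trans hc)).trans ?_)
    have hsub : Reps {g | ω ∈ R g} (1 - 1 / ((n : ℝ) + 1)) c ⊆ Reps {g | ω ∈ R g} κ c := by
      rintro a ⟨a1, a2, a3, a4, a5, a6⟩
      have h8 : ‖GaussianInt.toComplex c‖ ^ κ ≤ ‖GaussianInt.toComplex c‖ ^ (1 - 1 / ((n : ℝ) + 1)) :=
        Real.rpow_le_rpow_of_exponent_le hc1 (by linarith)
      exact ⟨a1, a2, a3, a4, h8.trans a5, h8.trans a6⟩
    have hfin : (Reps {g | ω ∈ R g} κ c).Finite :=
      (Pool.Agent.T6.H23.TB.finite_le (fun _ => True) ‖GaussianInt.toComplex c‖).subset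
        (fun a ha => ⟨trivial, ha.2.2.2.1⟩)
    exact_mod_cast Set.ncard_le_ncard hsub hfin
  · obtain ⟨m, hm⟩ := exists_nat_one_div_lt hδ
    obtain ⟨⟨T₀, h9⟩, C, h10⟩ := w4 m hα2
    refine ⟨⟨max T₀ 1, fun T hT => ?_⟩, max C 0, fun T hT => ?_⟩
    · have hT1 : 1 ≤ T := (le_max_right _ _).trans hT
      exact (Real.rpow_le_rpow_of_exponent_le hT1 (by linarith)).trans (h9 T ((le_max_left _ _).trans hT))
    · refine (h10 T hT).trans ?_
      exact mul_le_mul (le_max_left _ _) (Real.rpow_le_rpow_of_exponent_le hT (by linarith))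
        (Real.rpow_nonneg (by linarith) _) (le_max_right _ _)

end Pool.Agent.Results.MP_dc323a_nt.ThinBases
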