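import Mathlib
import Pool.Agent.T6.H44.MEM.Gi2

/-!
# The triples of Gaussian integers containing a given number

The coprime triples of Gaussian integers, of all sizes, containing a given number `c` are counted by
their radical, and the least radical of such a triple is found for almost all `c`. Up to signs and
order the triples containing `c` are the pairs `(a, b)` of coprime nonzero numbers with `a + b = c`.
-/

set_option autoImplicit false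

namespace Pool.Agent.Results.MP_dc323a_nt.TriplesContaining

/-- `|n|` -/
noncomputable def nm (n : GaussianInt) : ℝ := ‖GaussianInt.toComplex n‖

/-- `rad(n)`: the product of `|Q|` over the Gaussian primes `Q` dividing `n`, one from each class of
associates, namely the one with `Re Q > 0` and `Im Q ≥ 0` -/
noncomputable def rad (n : GaussianInt) : ℝ :=
  ∏ᶠ Q ∈ {Q : GaussianInt | Prime Q ∧ Q ∣ n ∧ (0 < Q.re ∧ 0 ≤ Q.im)}, nm Q

/-- the pairs `(a, b)` of coprime nonzero Gaussian integers with `a + b = c` -/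
def Sums (c : GaussianInt) : Set (GaussianInt × GaussianInt) :=
  {p | p.1 ≠ 0 ∧ p.2 ≠ 0 ∧ IsCoprime p.1 p.2 ∧ p.1 + p.2 = c}

/-- the pairs with `a + b = c` and `rad(ab) ≤ Y`, of whatever size -/
def ByRadical (c : GaussianInt) (Y : ℝ) : Set (GaussianInt × GaussianInt) :=
  {p | p ∈ Sums c ∧ rad (p.1 * p.2) ≤ Y}

/-- all primes dividing `u` divide `m` -/
def Over (m u : GaussianInt) : Prop := ∀ Q : GaussianInt, Prime Q → Q ∣ u → Q ∣ m

/-- the pairs with `rad(ab) ≤ Y` and `a + b ≠ 0` composed of primes dividing `m` -/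
def UnitSums (m : GaussianInt) (Y : ℝ) : Set (GaussianInt × GaussianInt) :=
  {p | ∃ c : GaussianInt, c ≠ 0 ∧ Over m c ∧ p ∈ ByRadical c Y}

/-- the pairs with `rad(ab) ≤ Y` for which `a + b` is a number composed of primes dividing `m`, times
a number of absolute value at most `Z` -/
def SmallSums (m : GaussianInt) (Z Y : ℝ) : Set (GaussianInt × GaussianInt) :=
  {p | ∃ u s : GaussianInt, u ≠ 0 ∧ s ≠ 0 ∧ Over m u ∧ nm s ≤ Z ∧ p ∈ ByRadical (u * s) Y}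

/-- the numbers `c`, `0 < |c| ≤ X`, for which some pair with `a + b = c ^ n` has
`rad(abc) < |c| ^ (2 - ε)` -/
def Exceptions (n : ℕ) (ε X : ℝ) : Set GaussianInt :=
  {c | c ≠ 0 ∧ nm c ≤ X ∧ ∃ p ∈ Sums (c ^ n), rad (p.1 * p.2 * c) < nm c ^ (2 - ε)}

theorem fin_of_bound {α : Type} (P : Set α) (B : ℝ)
    (h : ∀ G : Finset α, (G : Set α) ⊆ P → (G.card : ℝ) ≤ B) : P.Finite ∧ (P.ncard : ℝ) ≤ B := by
  have hfin : P.Finite := by
    by_contra hinf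
    obtain ⟨G, hGV, hGc⟩ := Set.Infinite.exists_subset_card_eq hinf (⌊B⌋₊ + 1)
    have h1 := h G hGV
    have h2 := Nat.lt_floor_add_one B
    rw [hGc] at h1
    push_cast at h1
    linarith
  refine ⟨hfin, ?_⟩
  rw [Set.ncard_eq_toFinset_card _ hfin]
  exact h hfin.toFinset (by rw [Set.Finite.coe_toFinset])

open Pool.Agent.T6.H44.MEM

/-- **The triples of Gaussian integers containing a given number.**
(1) Let `m ≠ 0` and `ε > 0`. For all `Y ≥ 1` at most `C Y ^ (1 + ε)` pairs with `rad(ab) ≤ Y`, of all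
sizes, have a sum `a + b ≠ 0` composed of primes dividing `m`.
(2) Let `c ≠ 0`. At least `c₁ Y` pairs have `a + b = c` and `rad(ab) ≤ Y`, for large `Y`.
(3) Let `m ≠ 0`, `B` real and `ε > 0`. For `1 ≤ Y ≤ X` at most `C X ^ ε Y ^ 2` pairs with
`rad(ab) ≤ Y`, of all sizes, have `a + b = u s` with `u` composed of primes dividing `m` and
`|s| ≤ X ^ B`.
(4) Let `n ≥ 1` and `0 < ε ≤ 1`. For all but `C X ^ (2 - ε / 2)` of the `c` with `|c| ≤ X`, all pairs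
with `a + b = c ^ n` have `rad(abc) ≥ |c| ^ (2 - ε)`.
(5) For `c ≠ 0, 1` some pair with `a + b = c` has `rad(abc) ≤ 2 |c| ^ 2`. -/
theorem result :
    (∀ m : GaussianInt, m ≠ 0 → ∀ ε : ℝ, 0 < ε → ∃ C : ℝ, ∀ Y : ℝ, 1 ≤ Y →
      (UnitSums m Y).Finite ∧ ((UnitSums m Y).ncard : ℝ) ≤ C * Y ^ (1 + ε)) ∧
    (∀ c : GaussianInt, c ≠ 0 → ∃ c₁ Y₀ : ℝ, 0 < c₁ ∧ ∀ Y : ℝ, Y₀ ≤ Y →
      (ByRadical c Y).Finite ∧ c₁ * Y ≤ ((ByRadical c Y).ncard : ℝ)) ∧
    (∀ m : GaussianInt, m ≠ 0 → ∀ B ε : ℝ, 0 < ε → ∃ C : ℝ, ∀ X Y : ℝ, 1 ≤ Y → Y ≤ X →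
      (SmallSums m (X ^ B) Y).Finite ∧
        ((SmallSums m (X ^ B) Y).ncard : ℝ) ≤ C * X ^ ε * Y ^ 2) ∧
    (∀ n : ℕ, 1 ≤ n → ∀ ε : ℝ, 0 < ε → ε ≤ 1 → ∃ C : ℝ, ∀ X : ℝ, 1 ≤ X →
      (Exceptions n ε X).Finite ∧ ((Exceptions n ε X).ncard : ℝ) ≤ C * X ^ (2 - ε / 2)) ∧
    (∀ c : GaussianInt, c ≠ 0 → c ≠ 1 → ∃ p ∈ Sums c, rad (p.1 * p.2 * c) ≤ 2 * nm c ^ 2) := by
  refine ⟨?_, ?_, ?_, ?_, ?_⟩
  · intro m hm ε hε
    obtain ⟨C, _, h⟩ := Gi.given_primes m hm ε hε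
    refine ⟨C, fun Y hY => fin_of_bound _ _ fun G hG => h Y hY G fun p hp => ?_⟩
    obtain ⟨c, h1, h2, ⟨h3, h4, h5, h6⟩, h7⟩ := hG hp
    rw [h6]
    exact ⟨h3, h4, h1, h5, h7, h2⟩
  · intro c hc
    obtain ⟨c1, Y0, hc1, h⟩ := Gi.many hc
    obtain ⟨C, _, h'⟩ := Gi.given_primes c hc 1 one_pos
    refine ⟨c1, max Y0 1, hc1, fun Y hY => ?_⟩
    have hfin := (fin_of_bound (ByRadical c Y) (C * Y ^ (1 + 1 : ℝ)) fun G hG =>
      h' Y ((le_max_right _ _).trans hY) G fun p hp => by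
        obtain ⟨⟨h3, h4, h5, h6⟩, h7⟩ := hG hp
        rw [h6]
        exact ⟨h3, h4, hc, h5, h7, fun Q _ h => h⟩).1
    refine ⟨hfin, ?_⟩
    obtain ⟨F, hF, hFc⟩ := h Y ((le_max_left _ _).trans hY)
    refine hFc.trans ?_
    have h1 : (F : Set (GaussianInt × GaussianInt)) ⊆ ByRadical c Y := by
      intro p hp
      obtain ⟨a1, a2, a3, a4, a5⟩ := hF p hp
      exact ⟨⟨a1, a2, a3, a4⟩, a5⟩
    have h2 := Set.ncard_le_ncard h1 hfin
    rw [Set.ncard_coe_finset] at h2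
    exact_mod_cast h2
  · intro m hm B ε hε
    obtain ⟨C, _, h⟩ := Gi.small_member m hm B ε hε
    refine ⟨C, fun X Y hY hYX => fin_of_bound _ _ fun G hG => h X Y hY hYX G fun p hp => ?_⟩
    obtain ⟨u, s, h1, h2, h3, h4, ⟨h5, h6, h7, h8⟩, h9⟩ := hG hp
    exact ⟨h5, h6, h7, h9, u, s, h1, h2, h8, h4, h3⟩
  · intro n hn ε hε hε1
    obtain ⟨C, _, h⟩ := Gi.few_exceptions n hn ε hε hε1
    refine ⟨C, fun X hX => fin_of_bound _ _ fun G hG => h X hX G fun c hc => ?_⟩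
    obtain ⟨h1, h2, p, ⟨h3, h4, h5, h6⟩, h7⟩ := hG hc
    exact ⟨h1, h2, p.1, p.2, h3, h4, h5, h6, h7⟩
  · intro c hc hc1
    obtain ⟨a, b, h1, h2, h3, h4, h5⟩ := Gi.upper_radical hc hc1
    exact ⟨(a, b), ⟨h1, h2, h3, h4⟩, h5⟩

end Pool.Agent.Results.MP_dc323a_nt.TriplesContaining
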